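import Pool.Agent.H1.TC.Fin
import Pool.Agent.H1.HL.Yao

/-!
# Threshold networks with a bounded number of rounds need superlinearly many wires

A network of threshold units with arbitrary real weights reads a list of `m` edges; a unit also
adds up arbitrary real functions of the single edges. It runs for `d + 1` rounds, feedback is
allowed. Circuits of threshold gates of depth `d + 1` are the special case without feedback.
If it says whether the graph has a triangle, then the number of the wires is at least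
`m ^ (1 + 1 / (4 · 3 ^ d))` up to a factor `log m`, even with two-sided error.
-/

set_option autoImplicit false

namespace Pool.Agent.Results.MP_ad5e8e_lc.ConstantDepth

open Finset MeasureTheory Filter
open Pool.Agent.H1.LT (Simple HasTriangle)
open Pool.Agent.H1.TC
open Pool.Agent.H1.HL (yao)

/-- The lower bound for `d + 1` rounds. -/
noncomputable def bound (d m : ℕ) : ℝ :=
  (m : ℝ) ^ (1 + 1 / (4 * 3 ^ d) : ℝ) / (600000000 * (d + 1) * 2 ^ (d + 1) * Real.log m)

theorem exists_m0 (d : ℕ) : ∃ m₀ : ℕ, 12 ≤ m₀ ∧ ∀ m, m₀ ≤ m →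
    320 * (d + 1) * (448000 * 2 ^ (d + 1) * Real.log m) ^ (4 * 3 ^ d) ≤ (m : ℝ) := by
  obtain ⟨E, hE⟩ : ∃ E : ℝ, E = 320 * (d + 1) * (448000 * 2 ^ (d + 1)) ^ (4 * 3 ^ d) := ⟨_, rfl⟩
  have hE0 : 0 < E := by rw [hE]; positivity
  have h1 := (Real.isLittleO_pow_log_id_atTop (n := 4 * 3 ^ d)).def (c := 1 / E) (by positivity)
  have h2 := (tendsto_natCast_atTop_atTop (R := ℝ)).eventually h1
  obtain ⟨k, hk⟩ := Filter.eventually_atTop.mp h2
  refine ⟨max 12 k, le_max_left _ _, fun m hm => ?_⟩
  have h3 := hk m ((le_max_right _ _).trans hm)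
  rw [id, Real.norm_of_nonneg (Nat.cast_nonneg m)] at h3
  have h4 : Real.log m ^ (4 * 3 ^ d) ≤ 1 / E * m := (le_abs_self _).trans h3
  rw [mul_pow, ← mul_assoc, ← hE]
  calc E * Real.log m ^ (4 * 3 ^ d) ≤ E * (1 / E * m) := mul_le_mul_of_nonneg_left h4 hE0.le
    _ = m := by field_simp

theorem simple_mono {k l m : ℕ} {a b : Fin m → ℕ} (h : Simple k a b) (hkl : k ≤ l) :
    Simple l a b := ⟨fun i => ⟨(h.1 i).1, (h.1 i).2.trans_le hkl⟩, h.2⟩

theorem Qn_le {m : ℕ} (hm : 12 ≤ m) (d : ℕ) :
    Qn (m / 3) d ≤ 448000 * 2 ^ (d + 1) * Real.log m := by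
  have hmR : (12 : ℝ) ≤ m := by exact_mod_cast hm
  have hn : 0 < m / 3 := by omega
  have hnR : (0 : ℝ) < (m / 3 : ℕ) := by exact_mod_cast hn
  have hn3 : ((m / 3 : ℕ) : ℝ) * 3 ≤ m := by
    have : m / 3 * 3 ≤ m := Nat.div_mul_le_self m 3
    exact_mod_cast this
  have hlog : 1 ≤ Real.log m := by
    rw [Real.le_log_iff_exp_le (by linarith)]
    have := Real.exp_one_lt_d9
    linarith
  have h1 : Real.log (2 * (2 * ((m / 3 : ℕ) : ℝ))) ≤ Real.log m + 1 / 2 := by
    have h2 : 2 * (2 * ((m / 3 : ℕ) : ℝ)) ≤ m * (4 / 3) := by linarith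
    have h3 := Real.log_le_log (by positivity) h2
    have h3' : Real.log ((m : ℝ) * (4 / 3)) = Real.log m + Real.log (4 / 3) :=
      Real.log_mul (by linarith) (by norm_num)
    have h4 : Real.log (4 / 3) ≤ 1 / 2 := by
      have := Real.log_le_sub_one_of_pos (show (0 : ℝ) < 4 / 3 by norm_num)
      linarith
    linarith
  have h5 : cst (2 * ((m / 3 : ℕ) : ℝ)) ≤ 1400 * Real.log m := by
    unfold cst
    linarith
  unfold Qn
  calc 80 * 2 ^ (d + 3) * cst (2 * ((m / 3 : ℕ) : ℝ)) ≤ 80 * 2 ^ (d + 3) * (1400 * Real.log m) :=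
        mul_le_mul_of_nonneg_left h5 (by positivity)
    _ = _ := by ring

theorem main {m d : ℕ} (hm : 12 ≤ m)
    (h0 : 320 * (d + 1) * (448000 * 2 ^ (d + 1) * Real.log m) ^ (4 * 3 ^ d) ≤ (m : ℝ))
    (C : Network m) (hC : (C.wires : ℝ) < bound d m) :
    2 / 5 * (Fintype.card (Idx (m / 3) (20 * (m / 3))) : ℝ) ≤
      ({x : Idx (m / 3) (20 * (m / 3)) |
        ¬ (C.answer (d + 1) (ta (m / 3) (20 * (m / 3))) (fb x) = true ↔
        HasTriangle (ta (m := m) (m / 3) (20 * (m / 3))) (fb x))} :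
        Set (Idx (m / 3) (20 * (m / 3)))).ncard := by
  have hmR : (12 : ℝ) ≤ m := by exact_mod_cast hm
  have hm0 : (0 : ℝ) < m := by linarith
  have hn : 0 < m / 3 := by omega
  obtain ⟨n, hnn⟩ : ∃ n, n = m / 3 := ⟨_, rfl⟩
  have hQ := Qn_le hm d
  have hQ1 := Qn_ge hn d
  rw [← hnn] at hn hQ hQ1 ⊢
  have hnR : (0 : ℝ) < n := by exact_mod_cast hn
  have hn4 : (m : ℝ) ≤ 4 * n := by
    have : m ≤ 4 * n := by omega
    exact_mod_cast this
  have hlog : 1 ≤ Real.log m := by
    rw [Real.le_log_iff_exp_le (by linarith)]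
    have := Real.exp_one_lt_d9
    linarith
  obtain ⟨X, hX⟩ : ∃ X : ℝ, X = 448000 * 2 ^ (d + 1) * Real.log m := ⟨_, rfl⟩
  rw [← hX] at hQ h0
  have hX0 : 0 < X := by rw [hX]; positivity
  obtain ⟨D, hD⟩ : ∃ D : ℕ, D = 4 * 3 ^ d := ⟨_, rfl⟩
  have hD1 : 1 ≤ D := by
    rw [hD]
    have : 0 < 3 ^ d := by positivity
    omega
  have hD0 : (D : ℝ) ≠ 0 := by
    have : (1 : ℝ) ≤ D := by exact_mod_cast hD1
    linarith
  rcases le_or_gt ((C.wires : ℝ) / n) 1 with hW | hW
  · -- few wires
    refine errors hn (by omega) C d (R := 1) le_rfl (by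
      rw [one_mul]
      rwa [div_le_one hnR] at hW) ?_
    rw [one_mul]
    have h1 : Qn n d ^ (4 * 3 ^ d) ≤ X ^ (4 * 3 ^ d) :=
      pow_le_pow_left₀ (by linarith) hQ _
    have h2 : 80 * ((d : ℝ) + 1) * Qn n d ^ (4 * 3 ^ d) ≤ 80 * (d + 1) * X ^ (4 * 3 ^ d) :=
      mul_le_mul_of_nonneg_left h1 (by positivity)
    linarith
  · refine errors hn (by omega) C d (R := (C.wires : ℝ) / n) hW.le (by
      rw [div_mul_cancel₀ _ hnR.ne']) ?_
    rw [← hD]
    -- the ratio
    obtain ⟨ρ, hρ⟩ : ∃ ρ : ℝ, ρ = (m : ℝ) ^ (1 / (D : ℝ)) := ⟨_, rfl⟩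
    have hρ0 : 0 < ρ := by rw [hρ]; positivity
    have hρD : ρ ^ D = m := by
      rw [hρ, ← Real.rpow_natCast, ← Real.rpow_mul hm0.le, one_div, inv_mul_cancel₀ hD0,
        Real.rpow_one]
    have hb : bound d m = m * ρ / (600000000 * (d + 1) * 2 ^ (d + 1) * Real.log m) := by
      unfold bound
      rw [hρ, hD, Real.rpow_add hm0, Real.rpow_one]
      push_cast
      rfl
    rw [hb] at hC
    have hR : (C.wires : ℝ) / n ≤ 4 * ρ / (600000000 * (d + 1) * 2 ^ (d + 1) * Real.log m) := by
      rw [div_le_iff₀ hnR]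
      refine hC.le.trans ?_
      rw [div_mul_eq_mul_div]
      refine div_le_div_of_nonneg_right ?_ (by positivity)
      nlinarith
    have hY : (C.wires : ℝ) / n * Qn n d ≤ ρ / (320 * (d + 1)) := by
      calc (C.wires : ℝ) / n * Qn n d ≤
          4 * ρ / (600000000 * (d + 1) * 2 ^ (d + 1) * Real.log m) * X :=
            mul_le_mul hR hQ (by linarith) (by positivity)
        _ = ρ * (1792000 / (600000000 * (d + 1))) := by
            rw [hX]
            field_simp
            ring
        _ ≤ ρ * (1 / (320 * (d + 1))) := by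
            refine mul_le_mul_of_nonneg_left ?_ hρ0.le
            rw [div_le_div_iff₀ (by positivity) (by positivity)]
            nlinarith [Nat.cast_nonneg (α := ℝ) d]
        _ = _ := by ring
    have hY0 : 0 ≤ (C.wires : ℝ) / n * Qn n d :=
      mul_nonneg (by positivity) (by linarith)
    have h3 : ((C.wires : ℝ) / n * Qn n d) ^ D ≤ (ρ / (320 * (d + 1))) ^ D :=
      pow_le_pow_left₀ hY0 hY D
    have h4 : (ρ / (320 * ((d : ℝ) + 1))) ^ D ≤ m / (320 * (d + 1)) := by
      rw [div_pow, hρD]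
      refine div_le_div_of_nonneg_left hm0.le (by positivity) ?_
      refine le_self_pow₀ ?_ (by omega)
      nlinarith [Nat.cast_nonneg (α := ℝ) d]
    calc 80 * ((d : ℝ) + 1) * ((C.wires : ℝ) / n * Qn n d) ^ D ≤
        80 * (d + 1) * (m / (320 * (d + 1))) :=
          mul_le_mul_of_nonneg_left (h3.trans h4) (by positivity)
      _ = m / 4 := by
          field_simp
          norm_num
      _ ≤ n := by linarith

theorem bound_pos {m : ℕ} (hm : 12 ≤ m) (d : ℕ) : 0 < bound d m := by
  have hmR : (12 : ℝ) ≤ m := by exact_mod_cast hm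
  have hlog : 0 < Real.log m := Real.log_pos (by linarith)
  unfold bound
  have : 0 < (m : ℝ) ^ (1 + 1 / (4 * 3 ^ d) : ℝ) := Real.rpow_pos_of_pos (by linarith) _
  positivity

theorem circuit {m : ℕ} (C : Network m) (lev : Fin C.s → ℕ)
    (hw : ∀ g h, C.w g h ≠ 0 → lev h < lev g) (a b : Fin m → ℕ) (v : Fin C.s → Bool)
    (hv : ∀ g, v g = decide (C.θ g ≤ ∑ i, C.f g i (a i) (b i) + ∑ h, if v h then C.w g h else 0))
    (t : ℕ) : ∀ g, lev g < t → C.state a b t g = v g := by
  induction t with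
  | zero => intro g hg; omega
  | succ t ih =>
    intro g hg
    have e : ∑ h, (if C.state a b t h then C.w g h else 0) =
        ∑ h, if v h then C.w g h else 0 := by
      refine Finset.sum_congr rfl fun h _ => ?_
      by_cases hgh : C.w g h = 0
      · rw [hgh]; simp
      · rw [ih h (by have := hw g h hgh; omega)]
    rw [Network.state, hv g, e]

/-- **Theorem.** There are numbers `m₀ d` such that the following holds.

* For each `m ≥ 12` there is one finite family of simple lists of `m` edges with names less than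
  `8 m` on which, for every `d` with `m₀ d ≤ m`, every network with fewer than `bound d m` wires
  running for `d + 1` rounds errs on at least two fifths.
* If `m₀ d ≤ m` and a random network, running for `d + 1` rounds, says with error probability at
  most `η` on every simple list of `m` edges with names less than `8 m` whether there is a
  triangle, then its expected number of wires is at least `(1 - 5 η / 2) bound d m`.
* If a network has no feedback, so that it is a circuit of threshold gates of depth at most `D`,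
  then its answer after `D` rounds is the value of the circuit. -/
theorem result :
    ∃ m₀ : ℕ → ℕ,
    (∀ m : ℕ, 12 ≤ m →
      ∃ (ι : Type) (_ : Fintype ι) (_ : Nonempty ι) (a b : ι → Fin m → ℕ),
        (∀ x, Simple (8 * m) (a x) (b x)) ∧
        ∀ d, m₀ d ≤ m → ∀ C : Network m, (C.wires : ℝ) < bound d m →
          2 / 5 * (Fintype.card ι : ℝ) ≤
          ({x | ¬ (C.answer (d + 1) (a x) (b x) = true ↔ HasTriangle (a x) (b x))} :
            Set ι).ncard) ∧
    (∀ (Ω : Type) [MeasurableSpace Ω] (μ : Measure Ω) [IsProbabilityMeasure μ] (d m : ℕ),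
      m₀ d ≤ m → 12 ≤ m → ∀ (C : Ω → Network m) (η : ℝ), 0 ≤ η →
      (∀ a b : Fin m → ℕ, Simple (8 * m) a b →
        μ {ω | ¬ ((C ω).answer (d + 1) a b = true ↔ HasTriangle a b)} ≤ ENNReal.ofReal η) →
      ENNReal.ofReal ((1 - 5 / 2 * η) * bound d m) ≤
        ∫⁻ ω, ENNReal.ofReal ((C ω).wires : ℝ) ∂μ) ∧
    ∀ (m : ℕ) (C : Network m) (lev : Fin C.s → ℕ) (D : ℕ), (∀ g, lev g < D) →
      (∀ g h, C.w g h ≠ 0 → lev h < lev g) → ∀ (a b : Fin m → ℕ) (v : Fin C.s → Bool),
      (∀ g, v g = decide (C.θ g ≤ ∑ i, C.f g i (a i) (b i) +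
        ∑ h, if v h then C.w g h else 0)) → C.answer D a b = v C.out := by
  choose m₀ hm₀ hm₀' using exists_m0
  have hfam : ∀ m : ℕ, 12 ≤ m →
      ∃ (ι : Type) (_ : Fintype ι) (_ : Nonempty ι) (a b : ι → Fin m → ℕ),
        (∀ x, Simple (8 * m) (a x) (b x)) ∧
        ∀ d, m₀ d ≤ m → ∀ C : Network m, (C.wires : ℝ) < bound d m →
          2 / 5 * (Fintype.card ι : ℝ) ≤
          ({x | ¬ (C.answer (d + 1) (a x) (b x) = true ↔ HasTriangle (a x) (b x))} :
            Set ι).ncard := by
    intro m hm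
    have hn : 0 < m / 3 := by omega
    have : Nonempty (Fin (m / 3)) := ⟨⟨0, hn⟩⟩
    have : Nonempty (Fin (20 * (m / 3))) := ⟨⟨0, by omega⟩⟩
    refine ⟨Idx (m / 3) (20 * (m / 3)), inferInstance, inferInstance,
      fun _ => ta (m / 3) (20 * (m / 3)), fun x => fb x, fun x => ?_,
      fun d hd C hC => main hm (hm₀' d m hd) C hC⟩
    exact simple_mono (simple_t (by omega) _) (by omega)
  refine ⟨m₀, hfam, ?_, ?_⟩
  · intro Ω _ μ _ d m hd hm C η hη herr
    obtain ⟨ι, i1, i2, a, b, hs, hf⟩ := hfam m hm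
    have hb := bound_pos hm d
    have h := yao (fun (C : Network m) y =>
      ¬ (C.answer (d + 1) (a y) (b y) = true ↔ HasTriangle (a y) (b y)))
      (fun C => (C.wires : ℝ)) (fun C => Nat.cast_nonneg _) (2 / 5) (2 / 5 / bound d m)
      (by positivity) (fun C => by
        by_cases hC : (C.wires : ℝ) < bound d m
        · refine le_trans ?_ (hf d hd C hC)
          refine mul_le_mul_of_nonneg_right ?_ (Nat.cast_nonneg _)
          have : 0 ≤ 2 / 5 / bound d m * C.wires := by positivity
          linarith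
        · push Not at hC
          refine le_trans ?_ (Nat.cast_nonneg _)
          refine mul_nonpos_of_nonpos_of_nonneg ?_ (Nat.cast_nonneg _)
          have : 2 / 5 ≤ 2 / 5 / bound d m * C.wires := by
            rw [div_mul_eq_mul_div, le_div_iff₀ hb]
            nlinarith
          linarith) μ C η hη (fun x => herr _ _ (hs x))
    refine le_trans (le_of_eq ?_) h
    congr 1
    field_simp
  · intro m C lev D hlev hw a b v hv
    exact circuit C lev hw a b v hv D C.out (hlev _)

end Pool.Agent.Results.MP_ad5e8e_lc.ConstantDepth
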