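import Pool.Agent.H1.HL.Param
import Pool.Agent.H1.HL.Net
import Pool.Agent.H1.HL.Yao

/-!
# Triangles and threshold circuits of depth two

A graph is given by the list of the names of the ends of its edges, in binary. A network has one
hidden layer of threshold units, each with arbitrary real weights for all the bits of the list, and
a threshold unit with arbitrary real weights at the top, which also reads arbitrary real functions
of the single edges. A random network which says with bounded error whether there is a triangle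
satisfies `∑_g √(number of edges that unit g reads) ≥ c m² / (log m)²` on average. So it has at
least `c m^(3/2) / (log m)²` units and at least `c m² / (log m)²` wires.
-/

set_option autoImplicit false

namespace Pool.Agent.Results.MP_ad5e8e_lc.DepthTwoThreshold

open Finset MeasureTheory Pool.Agent.H1 Pool.Agent.H1.LT Pool.Agent.H1.HL

/-- A network for lists of `m` edges with names of `L` bits. -/
structure Network (m L : ℕ) where
  /-- number of hidden units -/
  s : ℕ
  /-- weights of the bits of the first names -/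
  α : Fin s → Fin m → Fin L → ℝ
  /-- weights of the bits of the second names -/
  β : Fin s → Fin m → Fin L → ℝ
  /-- thresholds of the hidden units -/
  τ : Fin s → ℝ
  /-- weights of the hidden units at the top -/
  c : Fin s → ℝ
  /-- real functions of the single edges, added at the top -/
  ψ : Fin m → ℕ → ℕ → ℝ
  /-- threshold of the top unit -/
  θ : ℝ

/-- The hidden unit `g` is on: the weighted sum of the bits of the names exceeds the threshold. -/
def Network.On {m L : ℕ} (A : Network m L) (a b : Fin m → ℕ) (g : Fin A.s) : Prop :=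
  A.τ g < ∑ i, ∑ j : Fin L, ((if (a i).testBit j then A.α g i j else 0) +
    (if (b i).testBit j then A.β g i j else 0))

open Classical in
/-- The answer of the network on a list. -/
noncomputable def Network.answer {m L : ℕ} (A : Network m L) (a b : Fin m → ℕ) : Bool :=
  decide (A.θ < ∑ i, A.ψ i (a i) (b i) + ∑ g, (if A.On a b g then A.c g else 0))

open Classical in
/-- The number of edges that the hidden unit `g` reads (one for a constant unit). -/
noncomputable def Network.reads {m L : ℕ} (A : Network m L) (g : Fin A.s) : ℕ :=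
  max 1 (univ.filter fun i => ∃ j, A.α g i j ≠ 0 ∨ A.β g i j ≠ 0).card

/-- The cost of a network. -/
noncomputable def Network.cost {m L : ℕ} (A : Network m L) : ℝ := ∑ g, √(A.reads g)

theorem cost_nonneg {m L : ℕ} (A : Network m L) : 0 ≤ A.cost :=
  Finset.sum_nonneg fun _ _ => Real.sqrt_nonneg _

theorem units_le_cost {m L : ℕ} (A : Network m L) : (A.s : ℝ) ≤ A.cost := by
  calc (A.s : ℝ) = ∑ _g : Fin A.s, (1 : ℝ) := by simp
    _ ≤ _ := by
      refine Finset.sum_le_sum fun g _ => ?_
      rw [Real.one_le_sqrt]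
      exact_mod_cast le_max_left _ _

/-- The cost is at most `√m` times the number of the units. -/
theorem cost_le_units {m L : ℕ} (hm : 1 ≤ m) (A : Network m L) : A.cost ≤ A.s * √m := by
  calc A.cost ≤ ∑ _g : Fin A.s, √(m : ℝ) := by
        refine Finset.sum_le_sum fun g _ => Real.sqrt_le_sqrt ?_
        have : A.reads g ≤ m := by
          unfold Network.reads
          refine max_le hm ((Finset.card_le_univ _).trans ?_)
          rw [Fintype.card_fin]
        exact_mod_cast this
    _ = _ := by simp

/-- The cost is at most the number of the pairs (unit, edge that it reads). -/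
theorem cost_le_reads {m L : ℕ} (A : Network m L) : A.cost ≤ ∑ g, (A.reads g : ℝ) := by
  refine Finset.sum_le_sum fun g _ => ?_
  rw [Real.sqrt_le_left (Nat.cast_nonneg _)]
  have : (1 : ℝ) ≤ A.reads g := by exact_mod_cast le_max_left _ _
  nlinarith

theorem family (m L : ℕ) (hm : 2 ^ 21 ≤ m) (hL : 4 * m ≤ 2 ^ L) :
    ∃ (ι : Type) (_ : Fintype ι) (_ : Nonempty ι) (a b : ι → Fin m → ℕ),
      (∀ x, Simple (4 * m) (a x) (b x)) ∧
      ∀ A : Network m L, (2 / 5 - 600000 * (Nat.log 2 m) ^ 2 * A.cost / m ^ 2) *
        Fintype.card ι ≤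
        ({y | ¬ (A.answer (a y) (b y) = true ↔ HasTriangle (a y) (b y))} : Set ι).ncard := by
  classical
  have hP := pars m hm
  obtain ⟨k, hkd⟩ : ∃ k, k = Nat.log 2 m := ⟨_, rfl⟩
  rw [← hkd] at hP ⊢
  obtain ⟨N, hNd⟩ : ∃ N, N = 2 ^ (k - 3) := ⟨_, rfl⟩
  obtain ⟨R, hRd⟩ : ∃ R, R = 2 ^ (k - 1) := ⟨_, rfl⟩
  obtain ⟨K, hKd⟩ : ∃ K, K = N / (1024 * k) := ⟨_, rfl⟩
  rw [← hNd, ← hRd, ← hKd] at hP
  obtain ⟨ι, i1, i2, a, b, hs, hf⟩ := conclude m hm hP
  refine ⟨ι, i1, i2, a, b, hs, fun A => hf A.answer A.cost (cost_nonneg A) ?_⟩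
  intro hc hk
  have hk21 := hP.hk
  have hNm : N ≤ m := by
    have := hP.h1
    omega
  have hkL : k ≤ L := by
    have h1 : 2 ^ k ≤ m := by
      have := hP.h2
      rw [hP.hR]
      exact this
    have h2 : 2 ^ k ≤ 2 ^ L := by omega
    exact (Nat.pow_le_pow_iff_right (by norm_num)).mp h2
  choose C hC using fun g => form_inst (N := N) (m := m) (R := R) hP.hR hNm hkL (A.α g) (A.β g)
  obtain ⟨w, hw⟩ : ∃ w : Fin A.s → Fin N → Bits k → ℝ, ∀ g, w g = fun i j => Sum.elim
    (fun j => A.α g (Fin.castLE hNm i) (Fin.castLE hkL j))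
    (fun j => A.β g (Fin.castLE hNm i) (Fin.castLE hkL j)) j := ⟨_, fun _ => rfl⟩
  obtain ⟨T, hT⟩ : ∃ T : Fin A.s → Finset (Fin N), ∀ g, T g =
    univ.filter fun i => ∃ j, w g i j ≠ 0 := ⟨_, fun _ => rfl⟩
  have hTr : ∀ g, (T g).card ≤ A.reads g := by
    intro g
    unfold Network.reads
    refine le_trans ?_ (le_max_right _ _)
    refine Finset.card_le_card_of_injOn (Fin.castLE hNm) ?_ ?_
    · intro i hi
      rw [Finset.mem_coe, hT, Finset.mem_filter] at hi
      obtain ⟨j, hj⟩ := hi.2
      rw [Finset.mem_coe, Finset.mem_filter]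
      refine ⟨Finset.mem_univ _, ?_⟩
      rw [hw] at hj
      rcases j with j | j
      · exact ⟨Fin.castLE hkL j, Or.inl hj⟩
      · exact ⟨Fin.castLE hkL j, Or.inr hj⟩
    · intro i _ i' _ h
      exact Fin.castLE_injective _ h
  have hTcost : ∑ g, √((T g).card : ℝ) ≤ A.cost := by
    refine Finset.sum_le_sum fun g _ => Real.sqrt_le_sqrt ?_
    exact_mod_cast hTr g
  -- the edges outside the data
  obtain ⟨M, hM⟩ : ∃ M, m = N + M := ⟨m - N, by omega⟩
  obtain ⟨D, hD⟩ : ∃ D : ℝ, ∀ z : Fin N → Bits k → Bool,
      ∑ i, A.ψ i (ea m R (fun i => pval (z i)) i) (eb m R (fun i => qval (z i)) i) =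
      (∑ i : Fin N, A.ψ (Fin.castLE hNm i) (pval (z i)) (2 * R + qval (z i))) + D := by
    subst hM
    refine ⟨∑ i : Fin M, A.ψ (Fin.natAdd N i)
      (ea (N + M) R (fun _ : Fin N => 0) (Fin.natAdd N i))
      (eb (N + M) R (fun _ : Fin N => 0) (Fin.natAdd N i)), fun z => ?_⟩
    rw [Fin.sum_univ_add]
    congr 1
    · refine Finset.sum_congr rfl fun i _ => ?_
      have hi : ((Fin.castAdd M i : Fin (N + M)) : ℕ) < N := by simp
      have hc : Fin.castLE hNm i = Fin.castAdd M i := rfl
      have hp : ea (N + M) R (fun i => pval (z i)) (Fin.castAdd M i) = pval (z i) := by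
        unfold HL.ea
        rw [dif_pos hi]
        congr 1
      have hq : eb (N + M) R (fun i => qval (z i)) (Fin.castAdd M i) = 2 * R + qval (z i) := by
        unfold HL.eb
        rw [dif_pos hi]
        congr 1
      rw [hp, hq, hc]
    · refine Finset.sum_congr rfl fun i _ => ?_
      have hj : ¬ ((Fin.natAdd N i : Fin (N + M)) : ℕ) < N := by simp
      have hp : ea (N + M) R (fun i => pval (z i)) (Fin.natAdd N i) =
          ea (N + M) R (fun _ : Fin N => 0) (Fin.natAdd N i) := by
        unfold HL.ea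
        rw [dif_neg hj, dif_neg hj]
      have hq : eb (N + M) R (fun i => qval (z i)) (Fin.natAdd N i) =
          eb (N + M) R (fun _ : Fin N => 0) (Fin.natAdd N i) := by
        unfold HL.eb
        rw [dif_neg hj, dif_neg hj]
      rw [hp, hq]
  have hans : ∀ z : Fin N → Bits k → Bool,
      A.answer (ea m R fun i => pval (z i)) (eb m R fun i => qval (z i)) =
      netAns w (fun g => A.τ g - C g) A.c
        (fun i u => A.ψ (Fin.castLE hNm i) (pval u) (2 * R + qval u)) (A.θ - D) z := by
    intro z
    unfold Network.answer netAns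
    have e1 : ∀ g, A.On (ea m R fun i => pval (z i)) (eb m R fun i => qval (z i)) g ↔
        A.τ g - C g < form (w g) z := by
      intro g
      unfold Network.On
      rw [hC g z, hw]
      constructor <;> intro h <;> linarith
    have e2 : ∑ g, (if A.On (ea m R fun i => pval (z i)) (eb m R fun i => qval (z i)) g then
        A.c g else 0) = ∑ g, (if A.τ g - C g < form (w g) z then A.c g else 0) := by
      refine Finset.sum_congr rfl fun g _ => ?_
      simp only [e1 g]
    rw [e2, hD z]
    have e3 : (A.θ < ∑ i : Fin N, A.ψ (Fin.castLE hNm i) (pval (z i)) (2 * R + qval (z i)) + D +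
        ∑ g, (if A.τ g - C g < form (w g) z then A.c g else 0)) ↔
        (A.θ - D < ∑ i : Fin N, A.ψ (Fin.castLE hNm i) (pval (z i)) (2 * R + qval (z i)) +
        ∑ g, (if A.τ g - C g < form (w g) z then A.c g else 0)) := by
      constructor <;> intro h <;> linarith
    simp only [e3]
  simp only [hans]
  have : Nonempty (Bits k) := ⟨Sum.inl ⟨0, hk⟩⟩
  have h := net_distinguish (N := N) (ι := Bits k) (by have := hP.hbig; omega) w
    (fun g => A.τ g - C g) A.c (fun i u => A.ψ (Fin.castLE hNm i) (pval u) (2 * R + qval u))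
    (A.θ - D) T (fun g i hi j => by
      rw [hT, Finset.mem_filter, not_and] at hi
      have := hi (Finset.mem_univ _)
      push Not at this
      exact this j) (flipE hk) (ε := 1 / 16) (by norm_num) (by norm_num) K
  refine h.trans (mul_le_mul_of_nonneg_left ?_ ?_)
  · have hcard : (Fintype.card (Bits k) : ℝ) = 2 * k := by
      rw [Fintype.card_sum, Fintype.card_fin]
      push_cast
      ring
    have hcardN : Fintype.card (Bits k) = 2 * k := by
      rw [Fintype.card_sum, Fintype.card_fin]
      ring
    have hcodes : (((Fintype.card (Fin A.s) : ℕ) : ℝ) + 1) ^ K *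
        (2 ^ Fintype.card (Bits k) + 1) ^ (K + 1) *
        Real.exp (-((1 / 16) ^ 2 * ((N : ℝ) - 1))) ≤ 1 / 32 := by
      refine codes_small hP ?_
      rw [Fintype.card_fin, hcardN]
      have hs1 : (A.s : ℝ) + 1 ≤ 2 ^ (2 * k) := by
        have hkR : (21 : ℝ) ≤ k := by exact_mod_cast hk21
        have hmR : (0 : ℝ) < m := by
          have : 0 < m := by
            have := Nat.pow_pos (n := 21) (show 0 < 2 by norm_num)
            omega
          exact_mod_cast this
        rw [div_le_iff₀ (by positivity)] at hc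
        have h3 : (A.s : ℝ) ≤ A.cost := units_le_cost A
        have h4 : (m : ℝ) ^ 2 ≤ 4 * 2 ^ (2 * k) := by
          have h5 : (m : ℝ) ≤ 2 * 2 ^ k := by
            have := hP.hm
            have h6 := hP.h8
            have : m ≤ 2 * 2 ^ k := by omega
            exact_mod_cast this
          calc (m : ℝ) ^ 2 ≤ (2 * 2 ^ k) ^ 2 := pow_le_pow_left₀ hmR.le h5 2
            _ = 4 * 2 ^ (2 * k) := by rw [mul_pow, ← pow_mul, mul_comm k 2]; norm_num
        have h7 : (600000 * 441 : ℝ) * A.cost ≤ 2 / 5 * (4 * 2 ^ (2 * k)) := by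
          calc (600000 * 441 : ℝ) * A.cost ≤ 600000 * k ^ 2 * A.cost := by
                refine mul_le_mul_of_nonneg_right ?_ (cost_nonneg A)
                nlinarith
            _ ≤ 2 / 5 * m ^ 2 := hc
            _ ≤ _ := by linarith
        have h8 : (2 : ℝ) ≤ 2 ^ (2 * k) := by
          calc (2 : ℝ) = 2 ^ 1 := (pow_one 2).symm
            _ ≤ 2 ^ (2 * k) := pow_le_pow_right₀ (by norm_num) (by omega)
        linarith
      have hs2 : (2 : ℝ) ^ (2 * k) + 1 ≤ 2 ^ (2 * k + 1) := by
        rw [pow_succ]
        have : (1 : ℝ) ≤ 2 ^ (2 * k) := one_le_pow₀ (by norm_num)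
        linarith
      calc ((A.s : ℝ) + 1) ^ K * (2 ^ (2 * k) + 1) ^ (K + 1)
          ≤ (2 ^ (2 * k)) ^ K * (2 ^ (2 * k + 1)) ^ (K + 1) := by
            refine mul_le_mul (pow_le_pow_left₀ (by positivity) hs1 _)
              (pow_le_pow_left₀ (by positivity) hs2 _) (by positivity) (by positivity)
        _ = 2 ^ (2 * k * K + (2 * k + 1) * (K + 1)) := by
            rw [← pow_mul, ← pow_mul, ← pow_add]
        _ ≤ 2 ^ ((4 * k + 1) * (K + 1)) := by
            refine pow_le_pow_right₀ (by norm_num) ?_
            nlinarith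
    have hWpos : (0 : ℝ) ≤ Fintype.card (Fin N → Bits k → Bool) := Nat.cast_nonneg _
    have hK0 : (0 : ℝ) < (K : ℝ) + 1 := by positivity
    refine add_le_add (add_le_add le_rfl ?_) ?_
    · rw [hcard]
      refine mul_le_mul_of_nonneg_right ?_ hWpos
      refine div_le_div_of_nonneg_right ?_ hK0.le
      refine mul_le_mul_of_nonneg_left ?_ (by positivity)
      linarith
    · refine mul_le_mul_of_nonneg_right ?_ hWpos
      refine mul_le_mul_of_nonneg_left ?_ (Nat.cast_nonneg _)
      linarith
  · have : 1 ≤ N := by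
      have := hP.hbig
      omega
    have h' : ((1 : ℕ) : ℝ) ≤ N := by exact_mod_cast this
    push_cast at h'
    linarith

/-- **Theorem.** Let `m ≥ 2 ^ 21`, `4 m ≤ 2 ^ L`, and let a random network with one hidden layer of
threshold units say with error probability at most `η` on every simple list of `m` edges with names
less than `4 m` whether there is a triangle. Then the average cost is at least
`(2/5 - η) m² / (600000 (log₂ m)²)`; the cost is at most `√m` times the number of the units, and
at most the number of the pairs of a unit and an edge that it reads. The first part is the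
corresponding statement for networks which are correct on average. -/
theorem result :
    (∀ m L : ℕ, 2 ^ 21 ≤ m → 4 * m ≤ 2 ^ L →
      ∃ (ι : Type) (_ : Fintype ι) (_ : Nonempty ι) (a b : ι → Fin m → ℕ),
        (∀ x, Simple (4 * m) (a x) (b x)) ∧
        ∀ A : Network m L, (2 / 5 - 600000 * (Nat.log 2 m) ^ 2 * A.cost / m ^ 2) *
          Fintype.card ι ≤
          ({y | ¬ (A.answer (a y) (b y) = true ↔ HasTriangle (a y) (b y))} : Set ι).ncard) ∧
    (∀ (Ω : Type) [MeasurableSpace Ω] (μ : Measure Ω) [IsProbabilityMeasure μ] (m L : ℕ),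
      2 ^ 21 ≤ m → 4 * m ≤ 2 ^ L → ∀ (A : Ω → Network m L) (η : ℝ), 0 ≤ η →
      (∀ a b : Fin m → ℕ, Simple (4 * m) a b →
        μ {ω | ¬ ((A ω).answer a b = true ↔ HasTriangle a b)} ≤ ENNReal.ofReal η) →
      ENNReal.ofReal ((2 / 5 - η) * m ^ 2 / (600000 * (Nat.log 2 m) ^ 2)) ≤
        ∫⁻ ω, ENNReal.ofReal (A ω).cost ∂μ) ∧
    ∀ (m L : ℕ) (A : Network m L), 1 ≤ m →
      A.cost ≤ A.s * √m ∧ A.cost ≤ ∑ g, (A.reads g : ℝ) := by
  refine ⟨family, ?_, fun m L A hm => ⟨cost_le_units hm A, cost_le_reads A⟩⟩
  intro Ω _ μ _ m L hm hL A η hη herr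
  obtain ⟨ι, i1, i2, a, b, hs, hf⟩ := family m L hm hL
  have hP := (pars m hm).hk
  have hmR : (0 : ℝ) < m := by
    have : 0 < m := by
      have := Nat.pow_pos (n := 21) (show 0 < 2 by norm_num)
      omega
    exact_mod_cast this
  have hkR : (0 : ℝ) < Nat.log 2 m := by exact_mod_cast (by omega : 0 < Nat.log 2 m)
  have h := yao (fun (A : Network m L) y =>
    ¬ (A.answer (a y) (b y) = true ↔ HasTriangle (a y) (b y))) Network.cost cost_nonneg (2 / 5)
    (600000 * (Nat.log 2 m) ^ 2 / m ^ 2) (by positivity) (fun A => by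
      have := hf A
      rw [show 600000 * ((Nat.log 2 m : ℕ) : ℝ) ^ 2 / m ^ 2 * A.cost =
        600000 * (Nat.log 2 m) ^ 2 * A.cost / m ^ 2 by ring]
      exact this) μ A η hη (fun x => herr _ _ (hs x))
  refine le_trans (le_of_eq ?_) h
  congr 1
  field_simp

end Pool.Agent.Results.MP_ad5e8e_lc.DepthTwoThreshold
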