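import Pool.Agent.H1.LT.Inst

/-!
# Triangles and the signs of linear forms in the names of the vertices

A graph is given by the list of the names of the ends of its edges. A non-adaptive algorithm
computes the signs of `s` affine forms, with arbitrary real coefficients, of all the names, and
its answer is an arbitrary function of these signs. A random such algorithm which, on every list of
`m` edges with names less than `2 m + 3`, says with bounded error whether there is a triangle, uses
on average at least a constant times `m ^ (3 / 2)` forms.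
-/

set_option autoImplicit false

namespace Pool.Agent.Results.MP_ad5e8e_lc.LinearTests

open Finset MeasureTheory Pool.Agent.H1.LT

/-- A non-adaptive algorithm for lists of `m` edges: the signs of `s` affine forms with real
coefficients in the `2 m` names, and an arbitrary function of these signs. -/
structure Alg (m : ℕ) where
  /-- number of forms -/
  s : ℕ
  /-- constant terms -/
  c : Fin s → ℝ
  /-- coefficients of the first names -/
  α : Fin s → Fin m → ℝ
  /-- coefficients of the second names -/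
  β : Fin s → Fin m → ℝ
  /-- the answer -/
  ans : (Fin s → SignType) → Bool

/-- The answer of the algorithm on a list. -/
noncomputable def Alg.answer {m : ℕ} (A : Alg m) (a b : Fin m → ℕ) : Bool :=
  A.ans fun k => SignType.sign (A.c k + ∑ i, (A.α k i * a i + A.β k i * b i))

/-- The algorithm errs on a list. -/
def Alg.Errs {m : ℕ} (A : Alg m) (a b : Fin m → ℕ) : Prop :=
  ¬ (A.answer a b = true ↔ HasTriangle a b)

theorem card_pairs {N : ℕ} (R : Fin N → Fin N → Finset (Sp N))
    (J : Finset (Fin N × Fin N × Sp N)) (hJ : ∀ x, x ∈ J ↔ x.2.1 ≠ x.1 ∧ x.2.2 ∈ R x.1 x.2.1) :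
    J.card = ∑ t, ∑ t' ∈ univ.erase t, (R t t').card := by
  classical
  have h1 : J = univ.filter fun x => x.2.1 ≠ x.1 ∧ x.2.2 ∈ R x.1 x.2.1 := by
    ext x
    simp [hJ]
  rw [h1, Finset.card_filter, Fintype.sum_prod_type]
  refine Finset.sum_congr rfl fun t _ => ?_
  rw [Fintype.sum_prod_type]
  have h2 : ∀ t', (∑ z : Sp N, if t' ≠ t ∧ z ∈ R t t' then 1 else 0) =
      if t' ≠ t then (R t t').card else 0 := by
    intro t'
    by_cases h : t' = t
    · simp [h]
    · simp [h]
  rw [Finset.sum_congr rfl fun t' _ => h2 t', ← Finset.sum_filter]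
  refine Finset.sum_congr ?_ fun _ _ => rfl
  ext t'
  simp

theorem size_bound {m N : ℕ} (hm : 12 ≤ m) (hN : N = m / 2) :
    (m : ℝ) * √m ≤ 4 * (√N * (N - 1)) := by
  have h1 : m ≤ 2 * N + 1 := by omega
  have h1' : (m : ℝ) ≤ 2 * N + 1 := by exact_mod_cast h1
  have hm' : (12 : ℝ) ≤ m := by exact_mod_cast hm
  have h2 : 3 / 8 * (m : ℝ) ≤ N - 1 := by linarith
  have h3 : 2 / 3 * √(m : ℝ) ≤ √(N : ℝ) := by
    refine Real.le_sqrt_of_sq_le ?_
    rw [mul_pow, Real.sq_sqrt (by linarith)]
    linarith
  have h4 := Real.sqrt_nonneg (m : ℝ)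
  have h5 : (2 / 3 * √(m : ℝ)) * (3 / 8 * (m : ℝ)) ≤ √(N : ℝ) * (N - 1) :=
    mul_le_mul h3 h2 (by positivity) (Real.sqrt_nonneg _)
  nlinarith

theorem distribution (m : ℕ) (hm : 12 ≤ m) :
    ∃ (ι : Type) (_ : Fintype ι) (_ : Nonempty ι) (a b : ι → Fin m → ℕ),
      (∀ x, Simple (2 * m + 3) (a x) (b x)) ∧
      ∀ A : Alg m, (1 / 2 - 48 * A.s / (m * √m)) * Fintype.card ι ≤
        ({x | A.Errs (a x) (b x)} : Set ι).ncard := by
  classical
  obtain ⟨N, hN⟩ : ∃ N, N = m / 2 := ⟨_, rfl⟩
  have hN2 : 2 ≤ N := by omega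
  have hm1 : 2 * N ≤ m := by omega
  have hm2 : m ≤ 2 * N + 1 := by omega
  obtain ⟨G, hG⟩ : ∃ G : Fin N → Fin N → Finset (Sp N), ∀ t t', G t t' =
    univ.filter fun z => Good t t' z := ⟨fun t t' => univ.filter fun z => Good t t' z,
      fun _ _ => rfl⟩
  obtain ⟨J, hJ⟩ : ∃ J : Finset (Fin N × Fin N × Sp N),
    ∀ x, x ∈ J ↔ x.2.1 ≠ x.1 ∧ x.2.2 ∈ G x.1 x.2.1 :=
    ⟨univ.filter fun x => x.2.1 ≠ x.1 ∧ x.2.2 ∈ G x.1 x.2.1, fun x => by simp⟩
  have hΩ : (0 : ℝ) < Fintype.card (Sp N) := by
    have : Nonempty (Sp N) := ⟨fun _ => ((⟨0, by omega⟩, true), (⟨0, by omega⟩, true))⟩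
    exact_mod_cast Fintype.card_pos
  have hJc : (N : ℝ) * (N - 1) * Fintype.card (Sp N) ≤ 2 * J.card := by
    rw [card_pairs G J hJ]
    push_cast
    rw [Finset.mul_sum]
    have h1 : ∀ t t' : Fin N, (Fintype.card (Sp N) : ℝ) ≤ 2 * (G t t').card := by
      intro t t'
      have h2 := card_good hN2 t t' (univ.filter fun z => ¬ Good t t' z) fun z hz =>
        (Finset.mem_filter.mp hz).2
      have h3 := Finset.card_filter_add_card_filter_not (s := (univ : Finset (Sp N)))
        (fun z => Good t t' z)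
      rw [← hG, Finset.card_univ] at h3
      have h4 : Fintype.card (Sp N) ≤ 2 * (G t t').card := by omega
      exact_mod_cast h4
    have h5 : ∀ t : Fin N, ((N : ℝ) - 1) * Fintype.card (Sp N) ≤
        2 * ∑ t' ∈ univ.erase t, ((G t t').card : ℝ) := by
      intro t
      rw [Finset.mul_sum]
      calc ((N : ℝ) - 1) * Fintype.card (Sp N) =
          ∑ _t' ∈ univ.erase t, (Fintype.card (Sp N) : ℝ) := by
            rw [Finset.sum_const, nsmul_eq_mul, Finset.card_erase_of_mem (Finset.mem_univ t),
              Finset.card_univ, Fintype.card_fin, Nat.cast_sub (by omega), Nat.cast_one]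
        _ ≤ _ := Finset.sum_le_sum fun t' _ => h1 t t'
    calc (N : ℝ) * (N - 1) * Fintype.card (Sp N) =
        ∑ _t : Fin N, ((N : ℝ) - 1) * Fintype.card (Sp N) := by
          rw [Finset.sum_const, nsmul_eq_mul, Finset.card_univ, Fintype.card_fin]
          ring
      _ ≤ _ := Finset.sum_le_sum fun t _ => h5 t
  have hN1 : (1 : ℝ) ≤ (N : ℝ) - 1 := by
    have : ((2 : ℕ) : ℝ) ≤ N := by exact_mod_cast hN2
    push_cast at this
    linarith
  have hJpos : 0 < J.card := by
    have : (0 : ℝ) < 2 * J.card := lt_of_lt_of_le (by positivity) hJc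
    have h' : (0 : ℝ) < J.card := by linarith
    exact_mod_cast h'
  obtain ⟨x₀, hx₀⟩ := Finset.card_pos.mp hJpos
  refine ⟨J × Bool, inferInstance, ⟨(⟨x₀, hx₀⟩, true)⟩,
    fun x => ea m (P x.1.1.1 x.1.1.2.1 x.1.1.2.2),
    fun x => eb m (if x.2 then QY x.1.1.1 x.1.1.2.1 x.1.1.2.2 else
      QN x.1.1.1 x.1.1.2.1 x.1.1.2.2), ?_, ?_⟩
  · rintro ⟨⟨⟨t, t', z⟩, hx⟩, c⟩
    rw [hJ] at hx
    have hgood : Good t t' z := by
      have := hx.2
      rw [hG, Finset.mem_filter] at this
      exact this.2
    cases c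
    · simp only
      refine simple_inst hm1 hm2 _ _ (P_lt t t' z) (QN_le t t' z) fun i j hij hc => ?_
      exact good_no hx.1 hgood i j hij ⟨by rw [hc.1], hc.2⟩
    · simp only [if_true]
      exact simple_inst hm1 hm2 _ _ (P_lt t t' z) (QY_le t t' z) fun i j hij hc =>
        good_yes hx.1 hgood i j hij hc
  · intro A
    choose C hC using fun k => form_inst (N := N) (m := m) (by omega) (A.c k) (A.α k) (A.β k)
    obtain ⟨T, hT⟩ : ∃ T : Fin A.s → Fin N → Fin N → Finset (Sp N), ∀ k t t', T k t t' =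
      S (C k) (fun i => A.α k (Fin.castLE (by omega) i))
        (fun i => A.β k (Fin.castLE (by omega) i)) t t' := ⟨_, fun _ _ _ => rfl⟩
    -- separated triples
    obtain ⟨Z, hZ⟩ : ∃ Z : Fin A.s → Finset (Fin N × Fin N × Sp N),
      ∀ k x, x ∈ Z k ↔ x.2.1 ≠ x.1 ∧ x.2.2 ∈ T k x.1 x.2.1 :=
      ⟨fun k => univ.filter fun x => x.2.1 ≠ x.1 ∧ x.2.2 ∈ T k x.1 x.2.1, fun k x => by simp⟩
    have hZc : ∀ k, ((Z k).card : ℝ) ≤ 12 * √N * Fintype.card (Sp N) := by
      intro k
      rw [card_pairs (T k) (Z k) (hZ k)]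
      push_cast
      refine le_trans (le_of_eq ?_) (sum_S hN2 (C k) (fun i => A.α k (Fin.castLE (by omega) i))
        (fun i => A.β k (Fin.castLE (by omega) i)))
      refine Finset.sum_congr rfl fun t _ => Finset.sum_congr rfl fun t' _ => ?_
      rw [hT]
    obtain ⟨J', hJ'⟩ : ∃ J' : Finset (Fin N × Fin N × Sp N), J' = J \ univ.biUnion Z := ⟨_, rfl⟩
    have hJ'c : (J.card : ℝ) - A.s * (12 * √N * Fintype.card (Sp N)) ≤ J'.card := by
      have h1 : J.card ≤ J'.card + (univ.biUnion Z).card := by
        rw [hJ']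
        have := Finset.le_card_sdiff (univ.biUnion Z) J
        omega
      have h2 : ((univ.biUnion Z).card : ℝ) ≤ A.s * (12 * √N * Fintype.card (Sp N)) := by
        calc ((univ.biUnion Z).card : ℝ) ≤ ((∑ k, (Z k).card : ℕ) : ℝ) := by
              exact_mod_cast Finset.card_biUnion_le
          _ = ∑ k, ((Z k).card : ℝ) := by push_cast; rfl
          _ ≤ ∑ _k : Fin A.s, 12 * √N * (Fintype.card (Sp N) : ℝ) :=
              Finset.sum_le_sum fun k _ => hZc k
          _ = _ := by
              rw [Finset.sum_const, nsmul_eq_mul, Finset.card_univ, Fintype.card_fin]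
      have h3 : (J.card : ℝ) ≤ J'.card + (univ.biUnion Z).card := by exact_mod_cast h1
      linarith
    -- an error for each triple that is not separated
    have herr : J'.card ≤ ({x : J × Bool | A.Errs (ea m (P x.1.1.1 x.1.1.2.1 x.1.1.2.2))
        (eb m (if x.2 then QY x.1.1.1 x.1.1.2.1 x.1.1.2.2 else
          QN x.1.1.1 x.1.1.2.1 x.1.1.2.2))} : Set (J × Bool)).ncard := by
      have hsub : ∀ x ∈ J', x ∈ J := by
        intro x hx
        rw [hJ', Finset.mem_sdiff] at hx
        exact hx.1
      obtain ⟨f, hf⟩ : ∃ f : Fin N × Fin N × Sp N → J × Bool, ∀ x (hx : x ∈ J'),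
          f x = (⟨x, hsub x hx⟩, ! A.answer (ea m (P x.1 x.2.1 x.2.2))
            (eb m (QY x.1 x.2.1 x.2.2))) := by
        refine ⟨fun x => if hx : x ∈ J' then (⟨x, hsub x hx⟩, ! A.answer
          (ea m (P x.1 x.2.1 x.2.2)) (eb m (QY x.1 x.2.1 x.2.2))) else (⟨x₀, hx₀⟩, true), ?_⟩
        intro x hx
        simp only
        rw [dif_pos hx]
      rw [Set.ncard_eq_toFinset_card']
      refine Finset.card_le_card_of_injOn f ?_ ?_
      · rintro ⟨t, t', z⟩ hx
        have hx' : (t, t', z) ∈ J' := hx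
        have hxJ := hsub _ hx'
        rw [hJ] at hxJ
        simp only at hxJ
        have hgood : Good t t' z := by
          have := hxJ.2
          rw [hG, Finset.mem_filter] at this
          exact this.2
        have hsep : A.answer (ea m (P t t' z)) (eb m (QY t t' z)) =
            A.answer (ea m (P t t' z)) (eb m (QN t t' z)) := by
          unfold Alg.answer
          congr 1
          funext k
          rw [hC k, hC k]
          by_contra hne
          have h1 : z ∈ T k t t' := by
            rw [hT, mem_S]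
            exact hne
          have h2 : (t, t', z) ∈ univ.biUnion Z := by
            rw [Finset.mem_biUnion]
            exact ⟨k, Finset.mem_univ _, (hZ k _).mpr ⟨hxJ.1, h1⟩⟩
          rw [hJ', Finset.mem_sdiff] at hx'
          exact hx'.2 h2
        rw [hf _ hx']
        simp only [Set.coe_toFinset, Set.mem_ofPred_eq]
        have hy := yes_triangle hm1 hxJ.1 z
        have hn := no_triangle (m := m) hxJ.1 hgood
        unfold Alg.Errs
        cases hans : A.answer (ea m (P t t' z)) (eb m (QY t t' z))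
        · simp only [Bool.not_false, if_true, hans]
          simp [hy]
        · rw [hsep] at hans
          simp [hans, hn]
      · intro x hx y hy hxy
        rw [hf x hx, hf y hy, Prod.mk.injEq] at hxy
        exact congrArg Subtype.val hxy.1
    refine le_trans ?_ (le_trans hJ'c (by exact_mod_cast herr))
    rw [Fintype.card_prod, Fintype.card_bool, Fintype.card_coe]
    push_cast
    have hmm : (0 : ℝ) < m * √m := by
      have : (0 : ℝ) < m := by exact_mod_cast (by omega : 0 < m)
      positivity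
    have hs := size_bound hm hN
    have h1 : 12 * √N * (Fintype.card (Sp N) : ℝ) ≤ 96 * J.card / (m * √m) := by
      rw [le_div_iff₀ hmm]
      have hsN : √(N : ℝ) * √(N : ℝ) = N := Real.mul_self_sqrt (Nat.cast_nonneg _)
      have h2 : √(N : ℝ) * (m * √m) ≤ 4 * (N * (N - 1)) := by
        calc √(N : ℝ) * (m * √m) ≤ √N * (4 * (√N * (N - 1))) :=
              mul_le_mul_of_nonneg_left hs (Real.sqrt_nonneg _)
          _ = 4 * ((√(N : ℝ) * √(N : ℝ)) * (N - 1)) := by ring
          _ = _ := by rw [hsN]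
      calc 12 * √N * (Fintype.card (Sp N) : ℝ) * (m * √m) =
          12 * Fintype.card (Sp N) * (√(N : ℝ) * (m * √m)) := by ring
        _ ≤ 12 * Fintype.card (Sp N) * (4 * (N * (N - 1))) :=
            mul_le_mul_of_nonneg_left h2 (by positivity)
        _ = 48 * (N * (N - 1) * Fintype.card (Sp N)) := by ring
        _ ≤ 48 * (2 * J.card) := mul_le_mul_of_nonneg_left hJc (by norm_num)
        _ = _ := by ring
    have h3 : (A.s : ℝ) * (12 * √N * (Fintype.card (Sp N) : ℝ)) ≤
        A.s * (96 * J.card / (m * √m)) := mul_le_mul_of_nonneg_left h1 (Nat.cast_nonneg _)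
    have h4 : (1 / 2 - 48 * (A.s : ℝ) / (m * √m)) * (J.card * 2) =
        J.card - A.s * (96 * J.card / (m * √m)) := by
      field_simp
      ring
    rw [h4]
    linarith

/-- **Theorem.** For `m ≥ 12` there is a finite family of lists of `m` edges with names less than
`2 m + 3`, such that each non-adaptive algorithm with `s` linear tests errs on a fraction at least
`1 / 2 - 48 s / m ^ (3 / 2)` of the family. Hence a random non-adaptive algorithm that errs with
probability at most `η` on each list has an average number of linear tests at least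
`(1 / 2 - η) m ^ (3 / 2) / 48`. -/
theorem result :
    (∀ m : ℕ, 12 ≤ m → ∃ (ι : Type) (_ : Fintype ι) (_ : Nonempty ι) (a b : ι → Fin m → ℕ),
      (∀ x, Simple (2 * m + 3) (a x) (b x)) ∧
      ∀ A : Alg m, (1 / 2 - 48 * A.s / (m * √m)) * Fintype.card ι ≤
        ({x | A.Errs (a x) (b x)} : Set ι).ncard) ∧
    (∀ (Ω : Type) [MeasurableSpace Ω] (μ : Measure Ω) [IsProbabilityMeasure μ] (m : ℕ),
      12 ≤ m → ∀ (A : Ω → Alg m) (η : ℝ), 0 ≤ η →
      (∀ a b : Fin m → ℕ, Simple (2 * m + 3) a b →
        μ {ω | (A ω).Errs a b} ≤ ENNReal.ofReal η) →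
      ENNReal.ofReal ((1 / 2 - η) * (m * √m)) ≤ 48 * ∫⁻ ω, ((A ω).s : ENNReal) ∂μ) := by
  refine ⟨distribution, ?_⟩
  intro Ω _ μ _ m hm A η hη h
  classical
  obtain ⟨ι, _, _, a, b, hsimple, hA⟩ := distribution m hm
  have hmm : (0 : ℝ) < m * √m := by
    have : (0 : ℝ) < m := by exact_mod_cast (by omega : 0 < m)
    positivity
  have hcι : (0 : ℝ) < Fintype.card ι := by exact_mod_cast Fintype.card_pos
  obtain ⟨E, hE⟩ : ∃ E : ι → Set Ω, ∀ x, E x = toMeasurable μ {ω | (A ω).Errs (a x) (b x)} :=
    ⟨_, fun _ => rfl⟩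
  have hEm : ∀ x, MeasurableSet (E x) := fun x => by
    rw [hE]
    exact measurableSet_toMeasurable _ _
  have hEμ : ∀ x, μ (E x) ≤ ENNReal.ofReal η := fun x => by
    rw [hE, measure_toMeasurable]
    exact h _ _ (hsimple x)
  obtain ⟨c, hc⟩ : ∃ c : ℝ, c = 48 / (m * √m) := ⟨_, rfl⟩
  have hc0 : 0 ≤ c := by rw [hc]; positivity
  have hpt : ∀ ω, ENNReal.ofReal (1 / 2 * Fintype.card ι) ≤
      (∑ x, (E x).indicator (fun _ => (1 : ENNReal)) ω) +
        ENNReal.ofReal (c * Fintype.card ι) * ((A ω).s : ENNReal) := by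
    intro ω
    have h1 := hA (A ω)
    have h2 : ((({x | (A ω).Errs (a x) (b x)} : Set ι).ncard : ℕ) : ENNReal) ≤
        ∑ x, (E x).indicator (fun _ => (1 : ENNReal)) ω := by
      rw [Set.ncard_eq_toFinset_card', Finset.card_eq_sum_ones]
      push_cast
      refine le_trans ?_ (Finset.sum_le_univ_sum_of_nonneg
        (s := ({x | (A ω).Errs (a x) (b x)} : Set ι).toFinset) fun _ => zero_le)
      refine Finset.sum_le_sum fun x hx => ?_
      rw [Set.mem_toFinset] at hx
      rw [Set.indicator_of_mem]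
      rw [hE]
      exact subset_toMeasurable _ _ hx
    refine le_trans ?_ (add_le_add_left h2 _)
    have h3 : (1 / 2 * (Fintype.card ι : ℝ)) ≤
        (({x | (A ω).Errs (a x) (b x)} : Set ι).ncard : ℕ) + c * Fintype.card ι * (A ω).s := by
      have h4 : (1 / 2 - 48 * ((A ω).s : ℝ) / (m * √m)) * Fintype.card ι =
          1 / 2 * (Fintype.card ι : ℝ) - c * Fintype.card ι * (A ω).s := by
        rw [hc]
        ring
      rw [h4] at h1
      linarith
    refine (ENNReal.ofReal_le_ofReal h3).trans ?_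
    rw [ENNReal.ofReal_add (Nat.cast_nonneg _) (by positivity), ENNReal.ofReal_natCast,
      ENNReal.ofReal_mul (by positivity), ENNReal.ofReal_natCast]
  have hint := lintegral_mono (μ := μ) hpt
  rw [lintegral_const, measure_univ, mul_one, lintegral_add_left, lintegral_finsetSum,
    lintegral_const_mul' _ _ ENNReal.ofReal_ne_top] at hint
  rotate_left
  · intro x _
    exact measurable_one.indicator (hEm x)
  · exact Finset.measurable_sum _ fun x _ => measurable_one.indicator (hEm x)
  by_cases hI : ∫⁻ ω, ((A ω).s : ENNReal) ∂μ = ⊤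
  · rw [hI]
    simp
  · obtain ⟨I, hI'⟩ : ∃ I : ℝ, I = (∫⁻ ω, ((A ω).s : ENNReal) ∂μ).toReal := ⟨_, rfl⟩
    have hI0 : 0 ≤ I := by rw [hI']; exact ENNReal.toReal_nonneg
    have hI2 : ∫⁻ ω, ((A ω).s : ENNReal) ∂μ = ENNReal.ofReal I := by
      rw [hI', ENNReal.ofReal_toReal hI]
    rw [hI2] at hint ⊢
    have h5 : ∑ x, ∫⁻ ω, (E x).indicator (fun _ => (1 : ENNReal)) ω ∂μ ≤
        ENNReal.ofReal (Fintype.card ι * η) := by
      calc ∑ x, ∫⁻ ω, (E x).indicator (fun _ => (1 : ENNReal)) ω ∂μ
          ≤ ∑ _x : ι, ENNReal.ofReal η := by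
            refine Finset.sum_le_sum fun x _ => ?_
            rw [lintegral_indicator (hEm x), lintegral_const, Measure.restrict_apply_univ, one_mul]
            exact hEμ x
        _ = _ := by
            rw [Finset.sum_const, Finset.card_univ, nsmul_eq_mul,
              ENNReal.ofReal_mul (Nat.cast_nonneg _), ENNReal.ofReal_natCast]
    have h6 : ENNReal.ofReal (1 / 2 * Fintype.card ι) ≤
        ENNReal.ofReal (Fintype.card ι * η + c * Fintype.card ι * I) := by
      rw [ENNReal.ofReal_add (by positivity) (by positivity),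
        ENNReal.ofReal_mul (p := c * Fintype.card ι) (by positivity)]
      exact hint.trans (add_le_add_left h5 _)
    rw [ENNReal.ofReal_le_ofReal_iff (by positivity)] at h6
    have h7 : 1 / 2 ≤ η + c * I := by
      have : (1 / 2) * (Fintype.card ι : ℝ) ≤ (η + c * I) * Fintype.card ι := by linarith
      exact le_of_mul_le_mul_right this hcι
    have h8 : (1 / 2 - η) * (m * √m) ≤ 48 * I := by
      have h9 : (1 / 2 - η) * (m * √m) ≤ (c * I) * (m * √m) :=
        mul_le_mul_of_nonneg_right (by linarith) hmm.le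
      have h10 : (c * I) * (m * √m) = 48 * I := by
        rw [hc]
        field_simp
      linarith
    have h11 : (48 : ENNReal) * ENNReal.ofReal I = ENNReal.ofReal (48 * I) := by
      rw [ENNReal.ofReal_mul (by norm_num)]
      congr 1
      norm_num
    rw [h11]
    exact ENNReal.ofReal_le_ofReal h8

end Pool.Agent.Results.MP_ad5e8e_lc.LinearTests
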