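import Pool.Agent.H1.BP.Param
import Pool.Agent.H1.BP.Net
import Pool.Agent.H1.HL.Yao

/-!
# Triangles and machines whose steps test thresholds of all bits

A graph is given by the list of the names of the ends of its edges, in binary. A machine (a
branching program, possibly with cycles) has `s` states; in each state it tests one predicate of
the input, either a threshold of a linear form with arbitrary real coefficients in all bits of the
list, or an arbitrary predicate of one edge, and goes to the next state according to the result.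
There is no bound on the time. A random machine which says with bounded error whether there is a
triangle satisfies `∑ √(number of edges that the test of a state reads) ≥ c m² / (log m)²`, sum
over its states, on average. So it has at least `c m^(3/2) / (log m)²` states.
-/

set_option autoImplicit false

namespace Pool.Agent.Results.MP_ad5e8e_lc.ThresholdMachines

open Finset MeasureTheory Pool.Agent.H1 Pool.Agent.H1.LT Pool.Agent.H1.HL Pool.Agent.H1.BP

/-- A test of a list of `m` edges with names of `L` bits. -/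
inductive Query (m L : ℕ)
  /-- does the weighted sum of the bits of the names exceed `τ`? -/
  | threshold (α β : Fin m → Fin L → ℝ) (τ : ℝ) : Query m L
  /-- any predicate of one edge -/
  | edge (i : Fin m) (ψ : ℕ → ℕ → Bool) : Query m L

/-- The result of the test on a list. -/
noncomputable def Query.val {m L : ℕ} (P : Query m L) (a b : Fin m → ℕ) : Bool :=
  match P with
  | Query.threshold α β τ => decide (τ < ∑ i, ∑ j : Fin L,
      ((if (a i).testBit j then α i j else 0) + (if (b i).testBit j then β i j else 0)))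
  | Query.edge i ψ => ψ (a i) (b i)

open Classical in
/-- The number of edges that the test reads (at least one). -/
noncomputable def Query.reads {m L : ℕ} (P : Query m L) : ℕ :=
  match P with
  | Query.threshold α β _ => max 1 (univ.filter fun i => ∃ j, α i j ≠ 0 ∨ β i j ≠ 0).card
  | Query.edge _ _ => 1

/-- A machine with `s` states: the tests, the state (or answer) which follows a state for each of
the two results of its test, and the start. -/
structure Machine (m L : ℕ) where
  /-- number of states -/
  s : ℕ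
  /-- the tests -/
  query : Fin s → Query m L
  /-- the next state or the answer -/
  next : Fin s → Bool → Fin s ⊕ Bool
  /-- the start -/
  start : Fin s ⊕ Bool

open Classical in
/-- The answer: does the machine reach the answer `true` when it works on the list? -/
noncomputable def Machine.answer {m L : ℕ} (A : Machine m L) (a b : Fin m → ℕ) : Bool :=
  decide (Accepts (fun g => (A.query g).val a b) A.next A.start)

/-- The cost of a machine. -/
noncomputable def Machine.cost {m L : ℕ} (A : Machine m L) : ℝ := ∑ g, √((A.query g).reads : ℝ)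

theorem one_le_reads {m L : ℕ} (P : Query m L) : 1 ≤ P.reads := by
  rcases P with ⟨α, β, τ⟩ | ⟨i, ψ⟩
  · exact le_max_left _ _
  · exact le_rfl

theorem reads_le {m L : ℕ} (hm : 1 ≤ m) (P : Query m L) : P.reads ≤ m := by
  rcases P with ⟨α, β, τ⟩ | ⟨i, ψ⟩
  · refine max_le hm ((Finset.card_le_univ _).trans ?_)
    rw [Fintype.card_fin]
  · exact hm

theorem cost_nonneg {m L : ℕ} (A : Machine m L) : 0 ≤ A.cost :=
  Finset.sum_nonneg fun _ _ => Real.sqrt_nonneg _

theorem states_le_cost {m L : ℕ} (A : Machine m L) : (A.s : ℝ) ≤ A.cost := by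
  calc (A.s : ℝ) = ∑ _g : Fin A.s, (1 : ℝ) := by simp
    _ ≤ _ := by
      refine Finset.sum_le_sum fun g _ => ?_
      rw [Real.one_le_sqrt]
      exact_mod_cast one_le_reads _

/-- The cost is at most `√m` times the number of the states. -/
theorem cost_le_states {m L : ℕ} (hm : 1 ≤ m) (A : Machine m L) : A.cost ≤ A.s * √m := by
  calc A.cost ≤ ∑ _g : Fin A.s, √(m : ℝ) := by
        refine Finset.sum_le_sum fun g _ => Real.sqrt_le_sqrt ?_
        exact_mod_cast reads_le hm _
    _ = _ := by simp

theorem data_p {N m R : ℕ} (p : Fin N → ℕ) (i : Fin m) (h : (i : ℕ) < N) :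
    HL.ea m R p i = p ⟨i, h⟩ := by
  unfold HL.ea
  rw [dif_pos h]

theorem data_q {N m R : ℕ} (q : Fin N → ℕ) (i : Fin m) (h : (i : ℕ) < N) :
    HL.eb m R q i = 2 * R + q ⟨i, h⟩ := by
  unfold HL.eb
  rw [dif_pos h]

theorem rest_p {N m R : ℕ} (p p' : Fin N → ℕ) (i : Fin m) (h : ¬ (i : ℕ) < N) :
    HL.ea m R p i = HL.ea m R p' i := by
  unfold HL.ea
  rw [dif_neg h, dif_neg h]

theorem rest_q {N m R : ℕ} (q q' : Fin N → ℕ) (i : Fin m) (h : ¬ (i : ℕ) < N) :
    HL.eb m R q i = HL.eb m R q' i := by
  unfold HL.eb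
  rw [dif_neg h, dif_neg h]

/-- On the samples a test of lists is a test of the items. -/
theorem exists_test {N m R k L : ℕ} (hR : 2 ^ k = 2 * R) (hNm : N ≤ m) (hkL : k ≤ L)
    (P : Query m L) :
    ∃ T : Test N (Bits k), T.size ≤ P.reads ∧ ∀ z : Fin N → Bits k → Bool,
      P.val (HL.ea m R fun i => pval (z i)) (HL.eb m R fun i => qval (z i)) = T.val z := by
  classical
  rcases P with ⟨α, β, τ⟩ | ⟨i, ψ⟩
  · obtain ⟨C, hC⟩ := HL.form_inst (N := N) (m := m) (R := R) hR hNm hkL α β
    refine ⟨Test.lin (fun i j => Sum.elim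
      (fun j => α (Fin.castLE hNm i) (Fin.castLE hkL j))
      (fun j => β (Fin.castLE hNm i) (Fin.castLE hkL j)) j) (τ - C), ?_, fun z => ?_⟩
    · refine le_trans ?_ (le_max_right _ _)
      refine Finset.card_le_card_of_injOn (Fin.castLE hNm) ?_ ?_
      · intro i hi
        rw [Finset.mem_coe, Finset.mem_filter] at hi
        obtain ⟨j, hj⟩ := hi.2
        rw [Finset.mem_coe, Finset.mem_filter]
        refine ⟨Finset.mem_univ _, ?_⟩
        rcases j with j | j
        · exact ⟨Fin.castLE hkL j, Or.inl hj⟩
        · exact ⟨Fin.castLE hkL j, Or.inr hj⟩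
      · intro i _ i' _ h
        exact Fin.castLE_injective _ h
    · unfold Query.val Test.val
      simp only
      rw [hC z]
      refine decide_eq_decide.mpr ?_
      constructor <;> intro h <;> linarith
  · by_cases hi : (i : ℕ) < N
    · refine ⟨Test.one ⟨i, hi⟩ fun u => ψ (pval u) (2 * R + qval u), le_rfl, fun z => ?_⟩
      unfold Query.val Test.val
      simp only
      rw [data_p _ i hi, data_q _ i hi]
    · obtain ⟨c, hc⟩ : ∃ c : Bool, c = ψ (HL.ea m R (fun _ : Fin N => 0) i)
        (HL.eb m R (fun _ : Fin N => 0) i) := ⟨_, rfl⟩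
      refine ⟨Test.lin (fun _ _ => 0) (if c then -1 else 0), ?_, fun z => ?_⟩
      · unfold Test.size
        simp
      · unfold Query.val Test.val form
        simp only
        rw [rest_p _ (fun _ : Fin N => 0) i hi, rest_q _ (fun _ : Fin N => 0) i hi, ← hc]
        cases c <;> simp

theorem family (m L : ℕ) (hm : 2 ^ 21 ≤ m) (hL : 4 * m ≤ 2 ^ L) :
    ∃ (ι : Type) (_ : Fintype ι) (_ : Nonempty ι) (a b : ι → Fin m → ℕ),
      (∀ x, Simple (4 * m) (a x) (b x)) ∧
      ∀ A : Machine m L, (2 / 5 - 1200000 * (Nat.log 2 m) ^ 2 * A.cost / m ^ 2) *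
        Fintype.card ι ≤
        ({y | ¬ (A.answer (a y) (b y) = true ↔ HasTriangle (a y) (b y))} : Set ι).ncard := by
  classical
  have hP := pars m hm
  obtain ⟨k, hkd⟩ : ∃ k, k = Nat.log 2 m := ⟨_, rfl⟩
  rw [← hkd] at hP ⊢
  obtain ⟨N, hNd⟩ : ∃ N, N = 2 ^ (k - 3) := ⟨_, rfl⟩
  obtain ⟨R, hRd⟩ : ∃ R, R = 2 ^ (k - 1) := ⟨_, rfl⟩
  obtain ⟨K, hKd⟩ : ∃ K, K = N / (2048 * k) := ⟨_, rfl⟩
  rw [← hNd, ← hRd] at hP
  obtain ⟨ι, i1, i2, a, b, hs, hf⟩ := BP.conclude m hP hKd
  refine ⟨ι, i1, i2, a, b, hs, fun A => hf A.answer A.cost (cost_nonneg A) ?_⟩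
  intro hc hk
  have hk21 := hP.hk
  have hNm : N ≤ m := by
    have := hP.h1
    omega
  have hkL : k ≤ L := by
    have h1 : 2 ^ k ≤ m := by
      have := hP.h2
      rw [hP.hR]
      exact this
    have h2 : 2 ^ k ≤ 2 ^ L := by omega
    exact (Nat.pow_le_pow_iff_right (by norm_num)).mp h2
  choose T hT1 hT2 using fun g => exists_test (N := N) (m := m) (R := R) hP.hR hNm hkL (A.query g)
  have hcostT : ∑ g, √((T g).size : ℝ) ≤ A.cost := by
    refine Finset.sum_le_sum fun g _ => Real.sqrt_le_sqrt ?_
    exact_mod_cast hT1 g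
  have hans : ∀ z : Fin N → Bits k → Bool,
      A.answer (HL.ea m R fun i => pval (z i)) (HL.eb m R fun i => qval (z i)) =
      machAns T A.next A.start z := by
    intro z
    unfold Machine.answer machAns
    have : (fun g => (A.query g).val (HL.ea m R fun i => pval (z i))
        (HL.eb m R fun i => qval (z i))) = fun g => (T g).val z := by
      funext g
      exact hT2 g z
    rw [this]
  simp only [hans]
  have : Nonempty (Bits k) := ⟨Sum.inl ⟨0, hk⟩⟩
  have h := mach_distinguish (N := N) (ι := Bits k) (by have := hP.hbig; omega) T A.next A.start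
    (flipE hk) (ε := 1 / 16) (by norm_num) (by norm_num) K
  refine h.trans (mul_le_mul_of_nonneg_left ?_ ?_)
  · have hcard : (Fintype.card (Bits k) : ℝ) = 2 * k := by
      rw [Fintype.card_sum, Fintype.card_fin]
      push_cast
      ring
    have hcardN : Fintype.card (Bits k) = 2 * k := by
      rw [Fintype.card_sum, Fintype.card_fin]
      ring
    have hcodes : ((((Fintype.card (Fin A.s) : ℕ) : ℝ) + 1) ^ K *
        ((2 ^ Fintype.card (Bits k) + 1) ^ K * ((((K : ℝ) + 2) ^ 2) ^ K * (K + 2)))) *
        Real.exp (-((1 / 16) ^ 2 * ((N : ℝ) - 1))) ≤ 1 / 32 := by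
      refine BP.codes_small hP hKd ?_
      rw [Fintype.card_fin, hcardN]
      have hs1 : (A.s : ℝ) + 1 ≤ 2 ^ (2 * k) := by
        have hkR : (21 : ℝ) ≤ k := by exact_mod_cast hk21
        have hmR : (0 : ℝ) < m := by
          have : 0 < m := by
            have := Nat.pow_pos (n := 21) (show 0 < 2 by norm_num)
            omega
          exact_mod_cast this
        rw [div_le_iff₀ (by positivity)] at hc
        have h3 : (A.s : ℝ) ≤ A.cost := states_le_cost A
        have h4 : (m : ℝ) ^ 2 ≤ 4 * 2 ^ (2 * k) := by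
          have h5 : (m : ℝ) ≤ 2 * 2 ^ k := by
            have := hP.hm
            have h6 := hP.h8
            have : m ≤ 2 * 2 ^ k := by omega
            exact_mod_cast this
          calc (m : ℝ) ^ 2 ≤ (2 * 2 ^ k) ^ 2 := pow_le_pow_left₀ hmR.le h5 2
            _ = 4 * 2 ^ (2 * k) := by rw [mul_pow, ← pow_mul, mul_comm k 2]; norm_num
        have h7 : (1200000 * 441 : ℝ) * A.cost ≤ 2 / 5 * (4 * 2 ^ (2 * k)) := by
          calc (1200000 * 441 : ℝ) * A.cost ≤ 1200000 * k ^ 2 * A.cost := by
                refine mul_le_mul_of_nonneg_right ?_ (cost_nonneg A)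
                nlinarith
            _ ≤ 2 / 5 * m ^ 2 := hc
            _ ≤ _ := by linarith
        have h8 : (2 : ℝ) ≤ 2 ^ (2 * k) := by
          calc (2 : ℝ) = 2 ^ 1 := (pow_one 2).symm
            _ ≤ 2 ^ (2 * k) := pow_le_pow_right₀ (by norm_num) (by omega)
        linarith
      have hs2 : (2 : ℝ) ^ (2 * k) + 1 ≤ 2 ^ (2 * k + 1) := by
        rw [pow_succ]
        have : (1 : ℝ) ≤ 2 ^ (2 * k) := one_le_pow₀ (by norm_num)
        linarith
      have hs3 : (K : ℝ) + 2 ≤ 2 ^ k := by
        have h1 : K + 2 ≤ 2 ^ k := by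
          have h2 : K ≤ N := by
            rw [hKd]
            exact Nat.div_le_self _ _
          have h3 := hP.h8
          have h4 := hP.hbig
          omega
        exact_mod_cast h1
      calc ((A.s : ℝ) + 1) ^ K * ((2 ^ (2 * k) + 1) ^ K * ((((K : ℝ) + 2) ^ 2) ^ K * (K + 2)))
          ≤ (2 ^ (2 * k)) ^ K * ((2 ^ (2 * k + 1)) ^ K * (((2 ^ k) ^ 2) ^ K * 2 ^ k)) := by
            refine mul_le_mul (pow_le_pow_left₀ (by positivity) hs1 _) ?_ (by positivity)
              (by positivity)
            refine mul_le_mul (pow_le_pow_left₀ (by positivity) hs2 _) ?_ (by positivity)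
              (by positivity)
            refine mul_le_mul ?_ hs3 (by positivity) (by positivity)
            exact pow_le_pow_left₀ (by positivity) (pow_le_pow_left₀ (by positivity) hs3 _) _
        _ = 2 ^ (2 * k * K + ((2 * k + 1) * K + (k * 2 * K + k))) := by
            rw [← pow_mul, ← pow_mul, ← pow_mul, ← pow_mul, ← pow_add, ← pow_add, ← pow_add]
            congr 1
            ring
        _ ≤ 2 ^ ((6 * k + 1) * (K + 1)) := by
            refine pow_le_pow_right₀ (by norm_num) ?_
            nlinarith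
    have hWpos : (0 : ℝ) ≤ Fintype.card (Fin N → Bits k → Bool) := Nat.cast_nonneg _
    have hK0 : (0 : ℝ) < (K : ℝ) + 1 := by positivity
    refine add_le_add (add_le_add le_rfl ?_) ?_
    · rw [hcard]
      refine mul_le_mul_of_nonneg_right ?_ hWpos
      refine div_le_div_of_nonneg_right ?_ hK0.le
      refine mul_le_mul_of_nonneg_left ?_ (by positivity)
      linarith
    · refine mul_le_mul_of_nonneg_right ?_ hWpos
      refine mul_le_mul_of_nonneg_left ?_ (Nat.cast_nonneg _)
      linarith
  · have : 1 ≤ N := by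
      have := hP.hbig
      omega
    have h' : ((1 : ℕ) : ℝ) ≤ N := by exact_mod_cast this
    push_cast at h'
    linarith

/-- **Theorem.** Let `m ≥ 2 ^ 21`, `4 m ≤ 2 ^ L`, and let a random machine say with error
probability at most `η` on every simple list of `m` edges with names less than `4 m` whether there
is a triangle. Then the average cost is at least `(2/5 - η) m² / (1200000 (log₂ m)²)`; the cost is
at most `√m` times the number of the states. The first part is the corresponding statement for
machines which are correct on average. -/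
theorem result :
    (∀ m L : ℕ, 2 ^ 21 ≤ m → 4 * m ≤ 2 ^ L →
      ∃ (ι : Type) (_ : Fintype ι) (_ : Nonempty ι) (a b : ι → Fin m → ℕ),
        (∀ x, Simple (4 * m) (a x) (b x)) ∧
        ∀ A : Machine m L, (2 / 5 - 1200000 * (Nat.log 2 m) ^ 2 * A.cost / m ^ 2) *
          Fintype.card ι ≤
          ({y | ¬ (A.answer (a y) (b y) = true ↔ HasTriangle (a y) (b y))} : Set ι).ncard) ∧
    (∀ (Ω : Type) [MeasurableSpace Ω] (μ : Measure Ω) [IsProbabilityMeasure μ] (m L : ℕ),
      2 ^ 21 ≤ m → 4 * m ≤ 2 ^ L → ∀ (A : Ω → Machine m L) (η : ℝ), 0 ≤ η →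
      (∀ a b : Fin m → ℕ, Simple (4 * m) a b →
        μ {ω | ¬ ((A ω).answer a b = true ↔ HasTriangle a b)} ≤ ENNReal.ofReal η) →
      ENNReal.ofReal ((2 / 5 - η) * m ^ 2 / (1200000 * (Nat.log 2 m) ^ 2)) ≤
        ∫⁻ ω, ENNReal.ofReal (A ω).cost ∂μ) ∧
    ∀ (m L : ℕ) (A : Machine m L), 1 ≤ m → A.cost ≤ A.s * √m := by
  refine ⟨family, ?_, fun m L A hm => cost_le_states hm A⟩
  intro Ω _ μ _ m L hm hL A η hη herr
  obtain ⟨ι, i1, i2, a, b, hs, hf⟩ := family m L hm hL
  have hP := (pars m hm).hk
  have hmR : (0 : ℝ) < m := by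
    have : 0 < m := by
      have := Nat.pow_pos (n := 21) (show 0 < 2 by norm_num)
      omega
    exact_mod_cast this
  have hkR : (0 : ℝ) < Nat.log 2 m := by exact_mod_cast (by omega : 0 < Nat.log 2 m)
  have h := yao (fun (A : Machine m L) y =>
    ¬ (A.answer (a y) (b y) = true ↔ HasTriangle (a y) (b y))) Machine.cost cost_nonneg (2 / 5)
    (1200000 * (Nat.log 2 m) ^ 2 / m ^ 2) (by positivity) (fun A => by
      have := hf A
      rw [show 1200000 * ((Nat.log 2 m : ℕ) : ℝ) ^ 2 / m ^ 2 * A.cost =
        1200000 * (Nat.log 2 m) ^ 2 * A.cost / m ^ 2 by ring]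
      exact this) μ A η hη (fun x => herr _ _ (hs x))
  refine le_trans (le_of_eq ?_) h
  congr 1
  field_simp

end Pool.Agent.Results.MP_ad5e8e_lc.ThresholdMachines
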